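import Mathlib

set_option autoImplicit false

namespace Pool.Agent.Results.MP_7a9eeb_co.LightsOutDisproof

open Finset

open Classical in
/-- `G` is always winnable over `ℤ/ℓ`: from every initial labelling `lab` one can toggle each vertex
`u` some number `x u` of times (mod `ℓ`) so that every label becomes `0`; toggling `u` adds `1` to
the labels of all vertices of the closed neighbourhood of `u`. -/
def AlwaysWinnable {V : Type} [Fintype V] (G : SimpleGraph V) (l : ℕ) : Prop :=
  ∀ lab : V → ZMod l, ∃ x : V → ZMod l,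
    ∀ v, lab v + ∑ u ∈ univ.filter (fun u => u = v ∨ G.Adj u v), x u = 0

/-- The largest number of edges of an always-winnable graph on `n` vertices. -/
noncomputable def maxSize (n l : ℕ) : ℕ :=
  sSup {e | ∃ (V : Type) (_ : Fintype V) (G : SimpleGraph V),
    Fintype.card V = n ∧ AlwaysWinnable G l ∧ G.edgeSet.ncard = e}

/-- The least `k` with `gcd(n - 2k - 1, ℓ) = 1`. -/
noncomputable def kk (n l : ℕ) : ℕ := sInf {k | 2 * k + 1 ≤ n ∧ Nat.gcd (n - 2 * k - 1) l = 1}

/-- vertex set: four vertices and `m` pairs -/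
abbrev VV (m : ℕ) := Fin 4 ⊕ (Fin m × Bool)

/-- adjacency of the complement of `K_4 ∪ m K_2` -/
def A (m : ℕ) : VV m → VV m → Prop
  | Sum.inl _, Sum.inl _ => False
  | Sum.inl _, Sum.inr _ => True
  | Sum.inr _, Sum.inl _ => True
  | Sum.inr a, Sum.inr b => a.1 ≠ b.1

/-- The complement of `K_4 ∪ m K_2`. -/
def GG (m : ℕ) : SimpleGraph (VV m) where
  Adj := A m
  symm := ⟨by
    rintro (i | i) (j | j) h
    · exact h
    · trivial
    · trivial
    · exact Ne.symm h⟩
  loopless := ⟨by
    rintro (i | i) h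
    · exact h
    · exact h rfl⟩

lemma G_ll {m : ℕ} (i j : Fin 4) : (GG m).Adj (Sum.inl i) (Sum.inl j) ↔ False := Iff.rfl
lemma G_lr {m : ℕ} (i : Fin 4) (j : Fin m × Bool) :
    (GG m).Adj (Sum.inl i) (Sum.inr j) ↔ True := Iff.rfl
lemma G_rl {m : ℕ} (i : Fin 4) (j : Fin m × Bool) :
    (GG m).Adj (Sum.inr j) (Sum.inl i) ↔ True := Iff.rfl
lemma G_rr {m : ℕ} (i j : Fin m × Bool) :
    (GG m).Adj (Sum.inr i) (Sum.inr j) ↔ i.1 ≠ j.1 := Iff.rfl

open Classical in
lemma sum_left {m : ℕ} {R : Type} [AddCommMonoid R] (x : VV m → R) (i : Fin 4) :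
    ∑ u ∈ univ.filter (fun u => u = Sum.inl i ∨ (GG m).Adj u (Sum.inl i)), x u
      = x (Sum.inl i) + ∑ p : Fin m × Bool, x (Sum.inr p) := by
  rw [Finset.sum_filter, Fintype.sum_sum_type]
  congr 1
  · have : ∀ j : Fin 4, (if (Sum.inl j : VV m) = Sum.inl i ∨ (GG m).Adj (Sum.inl j) (Sum.inl i)
        then x (Sum.inl j) else 0) = if j = i then x (Sum.inl j) else 0 := by
      intro j
      simp [G_ll]
    simp only [this]
    simp
  · refine Finset.sum_congr rfl fun p _ => ?_
    simp [G_rl]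

open Classical in
lemma sum_right {m : ℕ} {R : Type} [AddCommGroup R] (x : VV m → R) (p : Fin m × Bool) :
    ∑ u ∈ univ.filter (fun u => u = Sum.inr p ∨ (GG m).Adj u (Sum.inr p)), x u
      = ∑ i : Fin 4, x (Sum.inl i) + (∑ q : Fin m × Bool, x (Sum.inr q) - x (Sum.inr (p.1, !p.2))) := by
  rw [Finset.sum_filter, Fintype.sum_sum_type]
  congr 1
  · refine Finset.sum_congr rfl fun i _ => ?_
    simp [G_lr]
  · have h1 : ∀ q : Fin m × Bool, (if (Sum.inr q : VV m) = Sum.inr p ∨ (GG m).Adj (Sum.inr q) (Sum.inr p)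
        then x (Sum.inr q) else 0)
        = x (Sum.inr q) - if q = (p.1, !p.2) then x (Sum.inr q) else 0 := by
      rintro ⟨q1, q2⟩
      obtain ⟨p1, p2⟩ := p
      by_cases h : q1 = p1
      · subst h
        cases q2 <;> cases p2 <;> simp [G_rr]
      · simp [G_rr, h]
    simp only [h1, Finset.sum_sub_distrib]
    simp

lemma winnable (m l : ℕ) (h : Nat.Coprime (6 * m + 1) l) : AlwaysWinnable (GG m) l := by
  classical
  intro lab
  obtain ⟨u, hu⟩ := (ZMod.isUnit_iff_coprime (6 * m + 1) l).mpr h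
  -- b = -lab
  set B4 : ZMod l := ∑ i : Fin 4, (-lab (Sum.inl i)) with hB4
  set B2 : ZMod l := ∑ p : Fin m × Bool, (-lab (Sum.inr p)) with hB2
  set T : ZMod l := (↑u⁻¹ : ZMod l) * (B4 + 3 * B2) with hT
  set S : ZMod l := T * (1 - 2 * m) + B2 with hS
  have hTu : (6 * (m : ZMod l) + 1) * T = B4 + 3 * B2 := by
    have h1 : (6 * (m : ZMod l) + 1) = (u : ZMod l) := by
      rw [hu]; push_cast; ring
    rw [h1, hT, ← mul_assoc, Units.mul_inv, one_mul]
  let x : VV m → ZMod l := Sum.elim (fun i => -lab (Sum.inl i) - T + S)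
    (fun p => T + lab (Sum.inr (p.1, !p.2)))
  have hx1 : ∑ i : Fin 4, x (Sum.inl i) = S := by
    have : ∑ i : Fin 4, x (Sum.inl i) = B4 - 4 * T + 4 * S := by
      simp only [x, Sum.elim_inl]
      rw [Finset.sum_add_distrib, Finset.sum_sub_distrib, ← hB4]
      simp
    rw [this]
    have h2 : B4 = (6 * (m : ZMod l) + 1) * T - 3 * B2 := by rw [hTu]; ring
    rw [h2, hS]
    ring
  have hx2 : ∑ p : Fin m × Bool, x (Sum.inr p) = 2 * m * T - B2 := by
    simp only [x, Sum.elim_inr]
    rw [Finset.sum_add_distrib]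
    have h3 : ∑ p : Fin m × Bool, lab (Sum.inr (p.1, !p.2)) = ∑ p : Fin m × Bool, lab (Sum.inr p) := by
      rw [Fintype.sum_prod_type, Fintype.sum_prod_type]
      refine Finset.sum_congr rfl fun i _ => ?_
      simp [add_comm]
    rw [h3, hB2, Finset.sum_neg_distrib]
    simp
    ring
  have htot : S + (2 * m * T - B2) = T := by
    rw [hS]; ring
  refine ⟨x, ?_⟩
  rintro (i | p)
  · have e := sum_left x i
    rw [hx2] at e
    have e2 : x (Sum.inl i) + (2 * m * T - B2) = - lab (Sum.inl i) := by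
      simp only [x, Sum.elim_inl]
      have : (2 * m * T - B2) = T - S := by rw [← htot]; ring
      rw [this]
      ring
    rw [e2] at e
    have e3 : lab (Sum.inl i) + - lab (Sum.inl i) = 0 := by ring
    rw [← e] at e3
    convert e3 using 3
    ext w
    simp only [Finset.mem_filter, Finset.mem_univ, true_and]
  · have e := sum_right x p
    rw [hx1, hx2] at e
    have e2 : S + (2 * m * T - B2 - x (Sum.inr (p.1, !p.2))) = - lab (Sum.inr p) := by
      simp only [x, Sum.elim_inr, Bool.not_not]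
      have : (2 * m * T - B2) = T - S := by rw [← htot]; ring
      rw [this]
      ring
    rw [e2] at e
    have e3 : lab (Sum.inr p) + - lab (Sum.inr p) = 0 := by ring
    rw [← e] at e3
    convert e3 using 3
    ext w
    simp only [Finset.mem_filter, Finset.mem_univ, true_and]

lemma card_edges (m : ℕ) : (GG m).edgeSet.ncard = 2 * m ^ 2 + 6 * m := by
  classical
  have h := (GG m).sum_degrees_eq_twice_card_edges
  have hdeg : ∀ v, (GG m).degree v + 1 =
      ∑ u ∈ univ.filter (fun u => u = v ∨ (GG m).Adj u v), 1 := by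
    intro v
    rw [← SimpleGraph.card_neighborFinset_eq_degree, ← Finset.card_eq_sum_ones,
      ← Finset.card_insert_of_notMem (SimpleGraph.notMem_neighborFinset_self _ v)]
    congr 1
    ext u
    simp [SimpleGraph.adj_comm]
  have h1 : ∀ i, (GG m).degree (Sum.inl i) = 2 * m := by
    intro i
    have := hdeg (Sum.inl i)
    rw [sum_left (fun _ => 1) i] at this
    simp at this
    omega
  have h2 : ∀ p, (GG m).degree (Sum.inr p) + 1 = 4 + (2 * m - 1) := by
    intro p
    have h3 := hdeg (Sum.inr p)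
    have h4 : ((∑ u ∈ univ.filter (fun u => u = Sum.inr p ∨ (GG m).Adj u (Sum.inr p)), 1 : ℕ) : ℤ)
        = ∑ u ∈ univ.filter (fun u => u = Sum.inr p ∨ (GG m).Adj u (Sum.inr p)), (1 : ℤ) := by
      push_cast; rfl
    rw [sum_right (fun _ => (1 : ℤ)) p] at h4
    rw [← h3] at h4
    simp at h4
    have hm : 0 < m := Fin.pos p.1
    omega
  rw [Fintype.sum_sum_type] at h
  rcases Nat.eq_zero_or_pos m with h0 | hm
  · subst h0
    simp only [h1] at h
    simp at h
    rw [← SimpleGraph.coe_edgeFinset, Set.ncard_coe_finset]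
    simpa using h
  have h2' : ∀ p, (GG m).degree (Sum.inr p) = 2 * m + 2 := by
    intro p
    have := h2 p
    omega
  simp only [h1, h2'] at h
  simp only [Finset.sum_const, Finset.card_univ, Fintype.card_fin, Fintype.card_prod,
    Fintype.card_bool, smul_eq_mul] at h
  rw [← SimpleGraph.coe_edgeFinset, Set.ncard_coe_finset]
  nlinarith

/-- For `n = 2m + 4` with `m ≥ 5` and `m ≢ 4 (mod 5)` there is an even `ℓ` with `k(n,ℓ) ≥ 4` for
which an always-winnable graph on `n` vertices has more than `C(n,2) - (n/2 + k(n,ℓ))` edges. -/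
theorem result (m : ℕ) (hm : 5 ≤ m) (hm5 : m % 5 ≠ 4) :
    ∃ l : ℕ, 0 < l ∧ Even l ∧ 4 ≤ kk (2 * m + 4) l ∧
      ((2 * m + 4).choose 2 : ℤ) - ((2 * m + 4 : ℕ) / 2 + kk (2 * m + 4) l : ℕ) <
        (maxSize (2 * m + 4) l : ℤ) := by
  classical
  set l : ℕ := 2 * ((2 * m + 3) * ((2 * m + 1) * ((2 * m - 1) * ((2 * m - 3) * (2 * m - 5))))) with hl
  have hlpos : 0 < l := by
    rw [hl]
    have : 0 < 2 * m - 1 := by omega
    have : 0 < 2 * m - 3 := by omega
    have : 0 < 2 * m - 5 := by omega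
    positivity
  have hcop : Nat.Coprime (6 * m + 1) l := by
    have key : ∀ (a c : ℕ), a % 2 = 1 → (6 * m + 1 = 3 * a + c ∨ 6 * m + 1 + c = 3 * a) →
        (∀ d, d ∣ c → d % 2 = 1 → d ∣ a → d = 1) → Nat.Coprime (6 * m + 1) a := by
      intro a c ha hc hd
      set g := Nat.gcd (6 * m + 1) a with hg
      have h1 : g ∣ 6 * m + 1 := Nat.gcd_dvd_left _ _
      have h2 : g ∣ a := Nat.gcd_dvd_right _ _
      have h3 : g ∣ c := by
        rcases hc with hc | hc
        · rw [hc] at h1
          exact (Nat.dvd_add_right (h2.mul_left 3)).mp h1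
        · have : g ∣ 6 * m + 1 + c := by rw [hc]; exact h2.mul_left 3
          exact (Nat.dvd_add_right h1).mp this
      have h4 : g % 2 = 1 := by
        obtain ⟨q, hq⟩ := h2
        by_contra hcon
        have h5 : g % 2 = 0 := by omega
        rw [hq, Nat.mul_mod, h5] at ha
        simp at ha
      exact hd g h3 h4 h2
    have c2 : Nat.Coprime (6 * m + 1) 2 := by
      rw [Nat.coprime_comm]
      exact (Nat.coprime_two_left (n := 6 * m + 1)).mpr ⟨3 * m, by ring⟩
    have small : ∀ N : ℕ, N ≤ 16 → (N = 8 ∨ N = 2 ∨ N = 4 ∨ N = 16) →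
        ∀ d, d ∣ N → d % 2 = 1 → d = 1 := by
      intro N hN hNN d hd hd2
      have hdle : d ≤ N := Nat.le_of_dvd (by omega) hd
      rcases hNN with rfl | rfl | rfl | rfl <;> interval_cases d <;> simp_all
    have k1 : Nat.Coprime (6 * m + 1) (2 * m + 3) :=
      key _ 8 (by omega) (Or.inr (by omega)) fun d hd h2 _ => small 8 (by norm_num) (by simp) d hd h2
    have k2 : Nat.Coprime (6 * m + 1) (2 * m + 1) :=
      key _ 2 (by omega) (Or.inr (by omega)) fun d hd h2 _ => small 2 (by norm_num) (by simp) d hd h2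
    have k3 : Nat.Coprime (6 * m + 1) (2 * m - 1) :=
      key _ 4 (by omega) (Or.inl (by omega)) fun d hd h2 _ => small 4 (by norm_num) (by simp) d hd h2
    have k4 : Nat.Coprime (6 * m + 1) (2 * m - 3) := by
      refine key _ 10 (by omega) (Or.inl (by omega)) fun d hd h2 hda => ?_
      have hdle : d ≤ 10 := Nat.le_of_dvd (by omega) hd
      have : d = 1 ∨ d = 5 := by
        interval_cases d <;> simp_all
      rcases this with h | h
      · exact h
      · exfalso
        rw [h] at hda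
        omega
    have k5 : Nat.Coprime (6 * m + 1) (2 * m - 5) :=
      key _ 16 (by omega) (Or.inl (by omega)) fun d hd h2 _ => small 16 le_rfl (by simp) d hd h2
    rw [hl]
    exact c2.mul_right (k1.mul_right (k2.mul_right (k3.mul_right (k4.mul_right k5))))
  have hk : 5 ≤ kk (2 * m + 4) l := by
    unfold kk
    apply le_csInf
    · refine ⟨m + 1, by omega, ?_⟩
      have : 2 * m + 4 - 2 * (m + 1) - 1 = 1 := by omega
      rw [this]
      exact Nat.gcd_one_left _
    · rintro k ⟨hk1, hk2⟩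
      by_contra hcon
      push Not at hcon
      have hdiv : ∀ a : ℕ, a ∣ l → 1 < a → Nat.gcd a l ≠ 1 := by
        intro a ha ha1 h
        rw [Nat.gcd_eq_left ha] at h
        omega
      have d1 : 2 * m + 3 ∣ l := by
        rw [hl]; exact Dvd.dvd.mul_left (Dvd.intro _ rfl) _
      have d2 : 2 * m + 1 ∣ l := by
        rw [hl]; exact Dvd.dvd.mul_left (Dvd.dvd.mul_left (Dvd.intro _ rfl) _) _
      have d3 : 2 * m - 1 ∣ l := by
        rw [hl]; exact Dvd.dvd.mul_left (Dvd.dvd.mul_left (Dvd.dvd.mul_left (Dvd.intro _ rfl) _) _) _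
      have d4 : 2 * m - 3 ∣ l := by
        rw [hl]
        exact Dvd.dvd.mul_left (Dvd.dvd.mul_left (Dvd.dvd.mul_left
          (Dvd.dvd.mul_left (Dvd.intro _ rfl) _) _) _) _
      have d5 : 2 * m - 5 ∣ l := by
        rw [hl]
        exact Dvd.dvd.mul_left (Dvd.dvd.mul_left (Dvd.dvd.mul_left
          (Dvd.dvd.mul_left (Dvd.intro_left _ rfl) _) _) _) _
      interval_cases k
      · exact hdiv _ d1 (by omega) (by simpa using hk2)
      · exact hdiv _ d2 (by omega) (by simpa using hk2)
      · refine hdiv _ d3 (by omega) ?_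
        have : 2 * m + 4 - 2 * 2 - 1 = 2 * m - 1 := by omega
        rwa [this] at hk2
      · refine hdiv _ d4 (by omega) ?_
        have : 2 * m + 4 - 2 * 3 - 1 = 2 * m - 3 := by omega
        rwa [this] at hk2
      · refine hdiv _ d5 (by omega) ?_
        have : 2 * m + 4 - 2 * 4 - 1 = 2 * m - 5 := by omega
        rwa [this] at hk2
  refine ⟨l, hlpos, hl ▸ even_two_mul _, by omega, ?_⟩
  have hmax : 2 * m ^ 2 + 6 * m ≤ maxSize (2 * m + 4) l := by
    unfold maxSize
    apply le_csSup
    · refine ⟨(2 * m + 4).choose 2, ?_⟩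
      rintro e ⟨V, hV, G, hc, -, rfl⟩
      rw [← SimpleGraph.coe_edgeFinset, Set.ncard_coe_finset, ← hc]
      exact G.card_edgeFinset_le_card_choose_two
    · exact ⟨VV m, inferInstance, GG m, by simp; ring, winnable m l hcop, card_edges m⟩
  have hch : (2 * m + 4).choose 2 = 2 * m ^ 2 + 7 * m + 6 := by
    rw [Nat.choose_two_right]
    have : 2 * m + 4 - 1 = 2 * m + 3 := by omega
    rw [this]
    have h2 : (2 * m + 4) * (2 * m + 3) = 2 * (2 * m ^ 2 + 7 * m + 6) := by ring
    rw [h2, Nat.mul_div_cancel_left _ (by norm_num)]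
  rw [hch]
  have h3 : (2 * m + 4 : ℕ) / 2 = m + 2 := by omega
  rw [h3]
  push_cast
  have h4 : ((2 * m ^ 2 + 6 * m : ℕ) : ℤ) ≤ (maxSize (2 * m + 4) l : ℤ) := by exact_mod_cast hmax
  have h5 : (5 : ℤ) ≤ (kk (2 * m + 4) l : ℤ) := by exact_mod_cast hk
  push_cast at h4
  linarith

end Pool.Agent.Results.MP_7a9eeb_co.LightsOutDisproof
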